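import Pool.Agent.W525.BNK

/-!
# Rank two coherent systems with canonical determinant: two thresholds
-/

open scoped WithZero Matrix
open WithZero

set_option linter.unusedSectionVars false
set_option linter.unusedVariables false

namespace Pool.Agent.Y803.NW

open Pool.Agent.Helper395.CS hiding genus
open Pool.Agent.Helper395.BC
open Pool.Agent.H294R3.CohSys
open Pool.Agent.W525.BNK

variable {K : Type} [Field K] [Algebra ℂ K]

theorem bn_le (hBN : IsBrillNoetherGeneral K) (A : LineBundle K) : (Module.finrank ℂ (H0 A) : ℤ) *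
    (Module.finrank ℂ (H0 A) - (A.degree + 1 - genus K)) ≤ genus K := by
  have := hBN A
  nlinarith

/-- a line subbundle of degree `≥ g - 1` of an `α`-stable system -/
theorem numbers (hK : IsCurve K) (hg : 2 ≤ genus K) (hBN : IsBrillNoetherGeneral K) {k : ℕ}
    {α : ℝ} (hα : 0 < α) (S : CoherentSystem K 2 (2 * (genus K : ℤ) - 2) k)
    (hS : IsCanonical S.bundle.det) (hst : S.IsStable α) {F : Bundle K 1}
    {j : (Fin 1 → K) →ₗ[K] (Fin 2 → K)} (hF : IsSubbundle F S.bundle j)
    (hdF : (genus K : ℤ) - 1 ≤ F.degree) :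
    ∃ a b : ℕ, (a : ℤ) - b = F.degree + 1 - genus K ∧ a * b ≤ genus K ∧ k / 2 + 1 ≤ b := by
  have hg0 : genus K ≠ 0 := by omega
  have hfE : FiniteDimensional ℂ S.bundle.sections := (rr hK hg0 S.bundle).1
  have hfV : FiniteDimensional ℂ S.space := Submodule.finiteDimensional_of_le S.le_sections
  set W : Submodule ℂ (Fin 1 → K) := S.space.comap (j.restrictScalars ℂ) with hW
  have hWF : W ≤ F.sections := by
    intro z hz v
    exact (hF.stalk v z).2 (S.le_sections hz v)
  have h1 := hst 1 F j W one_pos hF hWF (Submodule.map_comap_le _ _) (fun h => by omega)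
  have h2 := finrank_le_add hK hg0 hF S.space S.le_sections
  rw [← hW, S.finrank_eq] at h2
  rw [finrank_canonical_sub hK hg0 hS] at h2
  have h3 := (rrL hK hg0 F.det).2
  have h4 := bn_le hBN F.det
  rw [← h3] at h4
  rw [det_one_degree] at h3
  set a : ℕ := Module.finrank ℂ (H0 F.det)
  set b : ℕ := Module.finrank ℂ (H0 (lmul (can hK hg0) (linv F.det)))
  set w : ℕ := Module.finrank ℂ W
  have h5 : 2 * w < k := by
    have h6 : ((F.degree : ℝ) + α * w) * 2 < (((2 * (genus K : ℤ) - 2 : ℤ) : ℝ) + α * k) := by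
      rw [div_lt_div_iff₀ (by norm_num) (by norm_num)] at h1
      push_cast at h1 ⊢
      linarith
    have h7 : ((genus K : ℝ) - 1) ≤ F.degree := by exact_mod_cast hdF
    push_cast at h6
    have h8 : α * (2 * w) < α * k := by nlinarith
    have h9 : (2 * w : ℝ) < k := lt_of_mul_lt_mul_left h8 hα.le
    exact_mod_cast h9
  refine ⟨a, b, h3, ?_, by omega⟩
  have h9 : (a : ℤ) * ((a : ℤ) - (a - b)) = a * b := by ring
  rw [h9] at h4
  exact_mod_cast h4

/-- `α`-stable systems with a stable bundle -/
theorem stable_of (hK : IsCurve K) (hg : 2 ≤ genus K) (hBN : IsBrillNoetherGeneral K) {k : ℕ}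
    (hk : genus K < (k / 2 + 1) ^ 2) {α : ℝ} (hα : 0 < α)
    (S : CoherentSystem K 2 (2 * (genus K : ℤ) - 2) k) (hS : IsCanonical S.bundle.det)
    (hst : S.IsStable α) : Pool.Agent.Helper395.BC.IsStable S.bundle := by
  intro m F j hm0 hm2 hF
  obtain rfl : m = 1 := by omega
  by_contra hcon
  have hdF := sub_degree_lt S.degree_eq hcon
  obtain ⟨a, b, h1, h2, h3⟩ := numbers hK hg hBN hα S hS hst hF hdF
  have h4 : b ≤ a := by omega
  have h5 : (k / 2 + 1) * (k / 2 + 1) ≤ a * b := Nat.mul_le_mul (h3.trans h4) h3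
  rw [pow_two] at hk
  omega

/-- `α`-stable systems with a semistable bundle -/
theorem semistable_of (hK : IsCurve K) (hg : 2 ≤ genus K) (hBN : IsBrillNoetherGeneral K) {k : ℕ}
    (hk : genus K < (k / 2 + 1) * (k / 2 + 2)) {α : ℝ} (hα : 0 < α)
    (S : CoherentSystem K 2 (2 * (genus K : ℤ) - 2) k) (hS : IsCanonical S.bundle.det)
    (hst : S.IsStable α) : IsSemistable S.bundle := by
  intro m F j hm0 hF
  have hm2 : m ≤ 2 := sub_rank_le hF
  rcases lt_or_eq_of_le hm2 with hlt | heq
  · obtain rfl : m = 1 := by omega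
    by_contra hcon
    have hdF : (genus K : ℤ) ≤ F.degree := by
      rw [S.degree_eq] at hcon
      push_cast at hcon
      rw [div_one] at hcon
      push Not at hcon
      have h1 : (((genus K : ℤ) - 1 : ℤ) : ℚ) < F.degree := by
        push_cast
        linarith
      have h2 : (genus K : ℤ) - 1 < F.degree := by exact_mod_cast h1
      omega
    obtain ⟨a, b, h1, h2, h3⟩ := numbers hK hg hBN hα S hS hst hF (by omega)
    have h4 : b + 1 ≤ a := by omega
    have h5 : (k / 2 + 2) * (k / 2 + 1) ≤ a * b := Nat.mul_le_mul (by omega) h3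
    rw [mul_comm] at hk
    omega
  · subst heq
    rw [sub_full_degree hK hF]

/-- systems with a stable bundle are `α`-stable -/
theorem alpha_of (hK : IsCurve K) (hg : 2 ≤ genus K) (hBN : IsBrillNoetherGeneral K) {k : ℕ}
    (hk : genus K < (k / 2 + 1) * (k / 2 + 2)) {α : ℝ} (hα : 0 < α)
    (S : CoherentSystem K 2 (2 * (genus K : ℤ) - 2) k)
    (hst : Pool.Agent.Helper395.BC.IsStable S.bundle) : S.IsStable α := by
  have hg0 : genus K ≠ 0 := by omega
  have hfE : FiniteDimensional ℂ S.bundle.sections := (rr hK hg0 S.bundle).1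
  have hfV : FiniteDimensional ℂ S.space := Submodule.finiteDimensional_of_le S.le_sections
  intro m F j W hm0 hF hWF hWV hne
  have hm2 : m ≤ 2 := sub_rank_le hF
  have hinj : Function.Injective (j.restrictScalars ℂ) := hF.injective
  have hWeq : Module.finrank ℂ (W.map (j.restrictScalars ℂ)) = Module.finrank ℂ W :=
    (LinearEquiv.finrank_eq (Submodule.equivMapOfInjective _ hinj W)).symm
  have hfF : FiniteDimensional ℂ F.sections := (rr hK hg0 F).1
  have hfW : FiniteDimensional ℂ W := Submodule.finiteDimensional_of_le hWF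
  rcases lt_or_eq_of_le hm2 with hlt | heq
  · obtain rfl : m = 1 := by omega
    have h1 := hst 1 F j one_pos (by norm_num) hF
    have hd1 : F.degree < (genus K : ℤ) - 1 := by
      rw [S.degree_eq] at h1
      push_cast at h1
      rw [div_one] at h1
      have h2 : (F.degree : ℚ) < (((genus K : ℤ) - 1 : ℤ) : ℚ) := by
        push_cast
        linarith
      exact_mod_cast h2
    have hw : Module.finrank ℂ W ≤ Module.finrank ℂ (H0 F.det) := by
      have hfH : FiniteDimensional ℂ (H0 F.det) := H0_finite hK hg0 _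
      let ψ : W →ₗ[ℂ] H0 F.det :=
        { toFun := fun z => ⟨z.1 0, fun v => (mem_det_one F v z.1).1 (hWF z.2 v)⟩
          map_add' := fun _ _ => rfl
          map_smul' := fun _ _ => rfl }
      apply LinearMap.finrank_le_finrank_of_injective (f := ψ)
      intro x y hxy
      apply Subtype.ext
      funext i
      rw [Subsingleton.elim i 0]
      exact congrArg Subtype.val hxy
    have h4 := bn_le hBN F.det
    rw [det_one_degree] at h4
    set a : ℕ := Module.finrank ℂ (H0 F.det)
    set w : ℕ := Module.finrank ℂ W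
    have h5 : 2 * w ≤ k := by
      by_contra hcon
      push Not at hcon
      have h6 : (a : ℤ) * (a + 1) ≤ genus K := by
        have h7 : (a : ℤ) * (a + 1) ≤ a * ((a : ℤ) - (F.degree + 1 - genus K)) :=
          mul_le_mul_of_nonneg_left (by omega) (Nat.cast_nonneg _)
        linarith
      have h7 : a * (a + 1) ≤ genus K := by exact_mod_cast h6
      have h8 : (k / 2 + 1) * (k / 2 + 2) ≤ a * (a + 1) := Nat.mul_le_mul (by omega) (by omega)
      omega
    rw [div_lt_div_iff₀ (by norm_num) (by norm_num)]
    have h6 : (2 * w : ℝ) ≤ k := by exact_mod_cast h5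
    have h7 : (F.degree : ℝ) ≤ (genus K : ℝ) - 2 := by
      have : F.degree ≤ (genus K : ℤ) - 2 := by omega
      exact_mod_cast this
    have h8 : α * (2 * w) ≤ α * k := mul_le_mul_of_nonneg_left h6 hα.le
    push_cast
    linarith
  · subst heq
    have h1 : F.degree = 2 * (genus K : ℤ) - 2 := by rw [sub_full_degree hK hF, S.degree_eq]
    have h2 : W.map (j.restrictScalars ℂ) ≠ S.space := fun h => hne ⟨rfl, h⟩
    have h3 : Module.finrank ℂ W < k := by
      rw [← hWeq, ← S.finrank_eq]
      exact Submodule.finrank_lt_finrank_of_lt (lt_of_le_of_ne hWV h2)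
    have h4 : (Module.finrank ℂ W : ℝ) < k := by exact_mod_cast h3
    rw [h1, div_lt_div_iff_of_pos_right (by norm_num)]
    have := mul_lt_mul_of_pos_left h4 hα
    linarith

/-- a `k`-dimensional space of sections -/
theorem exists_space {n k : ℕ} (E : Bundle K n) (h : k ≤ Module.finrank ℂ E.sections) :
    ∃ V : Submodule ℂ (Fin n → K), V ≤ E.sections ∧ Module.finrank ℂ V = k := by
  rcases Nat.eq_zero_or_pos k with rfl | hk
  · exact ⟨⊥, bot_le, finrank_bot ℂ _⟩
  have hfin : FiniteDimensional ℂ E.sections := Module.finite_of_finrank_pos (by omega)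
  have hli := (Module.finBasis ℂ E.sections).linearIndependent.comp (Fin.castLE h)
    (Fin.castLE_injective h)
  have h1 := finrank_span_eq_card hli
  refine ⟨(Submodule.span ℂ (Set.range (Module.finBasis ℂ E.sections ∘ Fin.castLE h))).map
    E.sections.subtype, Submodule.map_subtype_le _ _, ?_⟩
  rw [(LinearEquiv.finrank_eq (Submodule.equivMapOfInjective _ E.sections.subtype_injective _)).symm,
    h1, Fintype.card_fin]

end Pool.Agent.Y803.NW
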